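import Mathlib

open Complex Metric Set Filter Topology MeasureTheory
open scoped ComplexConjugate Real

namespace Pool.Agent.H792R3.Quad

/-- point of the circle -/
noncomputable def ex (t : ℝ) : ℂ := Complex.exp (t * I)

lemma ex_cont : Continuous ex := by unfold ex; fun_prop

lemma ex_norm (t : ℝ) : ‖ex t‖ = 1 := Complex.norm_exp_ofReal_mul_I t

lemma ex_deriv (t : ℝ) : HasDerivAt ex (I * ex t) t := by
  have h1 : HasDerivAt (fun s : ℝ => (s : ℂ) * I) (1 * I) t :=
    Complex.ofRealCLM.hasDerivAt.mul_const I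
  have h2 := h1.cexp
  refine h2.congr_deriv ?_
  unfold ex; ring

lemma ex_eq (t : ℝ) : ex t = Real.cos t + Real.sin t * I := by
  unfold ex; rw [Complex.exp_mul_I]; push_cast; rfl

lemma ex_I (t : ℝ) : I * ex t = -Real.sin t + Real.cos t * I := by
  rw [ex_eq]; linear_combination (Real.sin t : ℂ) * I_mul_I

/-- Cauchy-Riemann combination of a real linear map at the polar frame -/
lemma frame (L : ℂ →L[ℝ] ℂ) (t : ℝ) :
    ex t * L (ex t) + I * ex t * L (I * ex t) = L 1 + I * L I := by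
  have h1 : L (ex t) = Real.cos t * L 1 + Real.sin t * L I := by
    rw [ex_eq]
    have : (Real.cos t : ℂ) + Real.sin t * I = Real.cos t • (1 : ℂ) + Real.sin t • I := by
      simp
    rw [this, map_add, map_smul, map_smul]
    simp
  have h2 : L (I * ex t) = -Real.sin t * L 1 + Real.cos t * L I := by
    rw [ex_I]
    have : -(Real.sin t : ℂ) + Real.cos t * I = (-Real.sin t) • (1 : ℂ) + Real.cos t • I := by
      simp
    rw [this, map_add, map_smul, map_smul]
    simp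
  rw [h1, h2, ex_I, ex_eq]
  have h3 : (Real.cos t : ℂ) ^ 2 + (Real.sin t : ℂ) ^ 2 = 1 := by
    rw [← Complex.ofReal_pow, ← Complex.ofReal_pow, ← Complex.ofReal_add, Real.cos_sq_add_sin_sq,
      Complex.ofReal_one]
  linear_combination (L 1 + I * L I) * h3

/-- The closed annulus. -/
def cann (c : ℂ) (a b : ℝ) : Set ℂ := {z | a ≤ ‖z - c‖ ∧ ‖z - c‖ ≤ b}

/-- The open annulus. -/
def oann (c : ℂ) (a b : ℝ) : Set ℂ := {z | a < ‖z - c‖ ∧ ‖z - c‖ < b}

lemma oann_open (c : ℂ) (a b : ℝ) : IsOpen (oann c a b) :=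
  (isOpen_lt continuous_const (continuous_id.sub continuous_const).norm).inter
    (isOpen_lt (continuous_id.sub continuous_const).norm continuous_const)

/-- polar coordinates at `c` -/
noncomputable def pc (c : ℂ) (p : ℝ × ℝ) : ℂ := c + p.1 * ex p.2

lemma pc_cont (c : ℂ) : Continuous (pc c) := by
  unfold pc
  exact continuous_const.add ((Complex.continuous_ofReal.comp continuous_fst).mul
    (ex_cont.comp continuous_snd))

lemma pc_norm (c : ℂ) {p : ℝ × ℝ} (hp : 0 ≤ p.1) : ‖pc c p - c‖ = p.1 := by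
  unfold pc
  rw [add_sub_cancel_left, norm_mul, ex_norm, mul_one, Complex.norm_real,
    Real.norm_of_nonneg hp]

lemma pc_mem_cann {c : ℂ} {a b : ℝ} (ha : 0 < a) {p : ℝ × ℝ}
    (hp : p ∈ Icc ((a, -π) : ℝ × ℝ) (b, π)) : pc c p ∈ cann c a b := by
  have h1 : a ≤ p.1 := hp.1.1
  have h2 : p.1 ≤ b := hp.2.1
  have := pc_norm c (p := p) (by linarith)
  exact ⟨by rw [this]; exact h1, by rw [this]; exact h2⟩

lemma Icc_ae (a b : ℝ) :
    (Icc ((a, -π) : ℝ × ℝ) (b, π) : Set (ℝ × ℝ)) =ᵐ[volume] (Ioo a b ×ˢ Ioo (-π) π) := by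
  rw [← Icc_prod_Icc, Measure.volume_eq_prod]
  exact Measure.set_prod_ae_eq Ioo_ae_eq_Icc.symm Ioo_ae_eq_Icc.symm

/-- Integration over an annulus in polar coordinates. -/
lemma int_polar {c : ℂ} {a b : ℝ} (ha : 0 < a) (D : ℂ → ℂ) :
    ∫ z in oann c a b, D z
      = ∫ p in Icc ((a, -π) : ℝ × ℝ) (b, π), (p.1 : ℂ) * D (pc c p) := by
  rw [setIntegral_congr_set (Icc_ae a b)]
  rw [← integral_indicator (oann_open c a b).measurableSet]
  rw [← integral_add_left_eq_self _ c]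
  rw [← Complex.integral_comp_polarCoord_symm]
  have e1 : (polarCoord.target : Set (ℝ × ℝ)) = Ioi 0 ×ˢ Ioo (-π) π := rfl
  rw [e1]
  have hsub : (Ioo a b ×ˢ Ioo (-π) π : Set (ℝ × ℝ)) ⊆ Ioi 0 ×ˢ Ioo (-π) π :=
    prod_mono (fun x hx => lt_trans ha hx.1) subset_rfl
  have hms : MeasurableSet (Ioi (0:ℝ) ×ˢ Ioo (-π) π) := measurableSet_Ioi.prod measurableSet_Ioo
  have hms' : MeasurableSet (Ioo a b ×ˢ Ioo (-π) π) := measurableSet_Ioo.prod measurableSet_Ioo
  have hpt : ∀ p : ℝ × ℝ, c + Complex.polarCoord.symm p = pc c p := by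
    intro p
    rw [Complex.polarCoord_symm_apply]
    unfold pc
    rw [ex_eq]
  rw [setIntegral_eq_of_subset_of_forall_sdiff_eq_zero hms hsub]
  · refine setIntegral_congr_fun hms' (fun p hp => ?_)
    show p.1 • (oann c a b).indicator D (c + Complex.polarCoord.symm p) = _
    have h0 : (0:ℝ) ≤ p.1 := (ha.trans hp.1.1).le
    rw [hpt, indicator_of_mem, Complex.real_smul]
    exact ⟨by rw [pc_norm c h0]; exact hp.1.1, by rw [pc_norm c h0]; exact hp.1.2⟩
  · rintro p ⟨hp1, hp2⟩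
    have h0 : (0:ℝ) ≤ p.1 := le_of_lt hp1.1
    rw [hpt, indicator_of_notMem, smul_zero]
    rintro ⟨h3, h4⟩
    rw [pc_norm c h0] at h3 h4
    exact hp2 ⟨⟨h3, h4⟩, hp1.2⟩

/-- Green's formula for an annulus. -/
theorem green_ann {c : ℂ} {a b : ℝ} (ha : 0 < a) (hab : a < b) {w D : ℂ → ℂ} {w' : ℂ → ℂ →L[ℝ] ℂ}
    (hwc : ContinuousOn w (cann c a b)) (hD : ContinuousOn D (cann c a b))
    (hw : ∀ z ∈ oann c a b, HasFDerivAt w (w' z) z)
    (hwD : ∀ z ∈ oann c a b, w' z 1 + I * w' z I = D z) :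
    ∫ z in oann c a b, D z = b * (∫ t in (-π)..π, ex t * w (c + b * ex t))
      - a * ∫ t in (-π)..π, ex t * w (c + a * ex t) := by
  rw [int_polar ha]
  set F : ℝ × ℝ → ℂ := fun p => (p.1 * ex p.2) * w (pc c p) with hF
  set G : ℝ × ℝ → ℂ := fun p => (I * ex p.2) * w (pc c p) with hG
  have hmaps : MapsTo (pc c) (Icc ((a, -π) : ℝ × ℝ) (b, π)) (cann c a b) :=
    fun p hp => pc_mem_cann ha hp
  have hwp : ContinuousOn (fun p => w (pc c p)) (Icc ((a, -π) : ℝ × ℝ) (b, π)) :=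
    hwc.comp (pc_cont c).continuousOn hmaps
  have hDp : ContinuousOn (fun p : ℝ × ℝ => (p.1 : ℂ) * D (pc c p)) (Icc ((a, -π) : ℝ × ℝ) (b, π)) :=
    (Complex.continuous_ofReal.comp continuous_fst).continuousOn.mul
      (hD.comp (pc_cont c).continuousOn hmaps)
  have hex2 : Continuous (fun p : ℝ × ℝ => ex p.2) := ex_cont.comp continuous_snd
  have hFc : ContinuousOn F (Icc ((a, -π) : ℝ × ℝ) (b, π)) :=
    (((Complex.continuous_ofReal.comp continuous_fst).mul hex2).continuousOn).mul hwp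
  have hGc : ContinuousOn G (Icc ((a, -π) : ℝ × ℝ) (b, π)) :=
    ((continuous_const.mul hex2).continuousOn).mul hwp
  have hin : ∀ p ∈ Ioo a b ×ˢ Ioo (-π) π, pc c p ∈ oann c a b := by
    intro p hp
    have h0 : (0:ℝ) ≤ p.1 := (ha.trans hp.1.1).le
    exact ⟨by rw [pc_norm c h0]; exact hp.1.1, by rw [pc_norm c h0]; exact hp.1.2⟩
  -- differentiability
  have hexd : ∀ p : ℝ × ℝ, DifferentiableAt ℝ (fun p : ℝ × ℝ => ex p.2) p := fun p =>
    ((ex_deriv p.2).differentiableAt).comp p differentiableAt_snd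
  have hfst : ∀ p : ℝ × ℝ, DifferentiableAt ℝ (fun p : ℝ × ℝ => (p.1 : ℂ)) p := fun p =>
    (Complex.ofRealCLM.differentiableAt).comp p differentiableAt_fst
  have hpcd : ∀ p : ℝ × ℝ, DifferentiableAt ℝ (pc c) p := fun p =>
    ((hfst p).mul (hexd p)).const_add c
  have hwpd : ∀ p ∈ Ioo a b ×ˢ Ioo (-π) π, DifferentiableAt ℝ (fun p => w (pc c p)) p :=
    fun p hp => ((hw _ (hin p hp)).differentiableAt).comp p (hpcd p)
  have hFd : ∀ p ∈ Ioo a b ×ˢ Ioo (-π) π, HasFDerivAt F (fderiv ℝ F p) p := fun p hp =>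
    (((hfst p).mul (hexd p)).mul (hwpd p hp)).hasFDerivAt
  have hGd : ∀ p ∈ Ioo a b ×ˢ Ioo (-π) π, HasFDerivAt G (fderiv ℝ G p) p := fun p hp =>
    (((differentiableAt_const I).mul (hexd p)).mul (hwpd p hp)).hasFDerivAt
  -- partial derivatives
  have hval : ∀ p ∈ Ioo a b ×ˢ Ioo (-π) π,
      fderiv ℝ F p (1, 0) + fderiv ℝ G p (0, 1) = (p.1 : ℂ) * D (pc c p) := by
    rintro ⟨r, t⟩ hp
    have hz := hin _ hp
    have l1 : HasDerivAt (fun s : ℝ => ((s, t) : ℝ × ℝ)) (1, 0) r :=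
      (hasDerivAt_id r).prodMk (hasDerivAt_const r t)
    have l2 : HasDerivAt (fun s : ℝ => ((r, s) : ℝ × ℝ)) (0, 1) t :=
      (hasDerivAt_const t r).prodMk (hasDerivAt_id t)
    have a1 := (hFd _ hp).comp_hasDerivAt r l1
    have a2 := (hGd _ hp).comp_hasDerivAt t l2
    have b1 : HasDerivAt (fun s : ℝ => pc c (s, t)) (ex t) r := by
      have := ((Complex.ofRealCLM.hasDerivAt (x := r)).mul_const (ex t)).const_add c
      exact this.congr_deriv (by simp)
    have b2 : HasDerivAt (fun s : ℝ => pc c (r, s)) (r * (I * ex t)) t :=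
      ((ex_deriv t).const_mul (r : ℂ)).const_add c
    have c1 : HasDerivAt (fun s : ℝ => w (pc c (s, t))) (w' (pc c (r, t)) (ex t)) r :=
      (hw _ hz).comp_hasDerivAt r b1
    have c2 : HasDerivAt (fun s : ℝ => w (pc c (r, s))) (w' (pc c (r, t)) (r * (I * ex t))) t :=
      (hw _ hz).comp_hasDerivAt t b2
    have d1 : HasDerivAt (fun s : ℝ => F (s, t))
        ((1 * ex t) * w (pc c (r, t)) + (r * ex t) * w' (pc c (r, t)) (ex t)) r :=
      ((Complex.ofRealCLM.hasDerivAt (x := r)).mul_const (ex t)).mul c1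
    have d2 : HasDerivAt (fun s : ℝ => G (r, s))
        ((I * (I * ex t)) * w (pc c (r, t)) + (I * ex t) * w' (pc c (r, t)) (r * (I * ex t))) t :=
      ((ex_deriv t).const_mul I).mul c2
    have e1 := a1.unique d1
    have e2 := a2.unique d2
    rw [e1, e2]
    have e3 : w' (pc c (r, t)) (r * (I * ex t)) = r * w' (pc c (r, t)) (I * ex t) := by
      have : (r : ℂ) * (I * ex t) = r • (I * ex t) := by rw [Complex.real_smul]
      rw [this, map_smul, Complex.real_smul]
    rw [e3, ← hwD _ hz, ← frame (w' (pc c (r, t))) t]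
    linear_combination (ex t * w (pc c (r, t))) * I_mul_I
  have hval' : (fun p => fderiv ℝ F p (1, 0) + fderiv ℝ G p (0, 1))
      =ᵐ[volume.restrict (Icc ((a, -π) : ℝ × ℝ) (b, π))] fun p => (p.1 : ℂ) * D (pc c p) := by
    rw [Measure.restrict_congr_set (Icc_ae a b)]
    exact (ae_restrict_iff' (measurableSet_Ioo.prod measurableSet_Ioo)).mpr
      (Eventually.of_forall hval)
  have hDi : IntegrableOn (fun p : ℝ × ℝ => (p.1 : ℂ) * D (pc c p)) (Icc ((a, -π) : ℝ × ℝ) (b, π)) :=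
    hDp.integrableOn_compact isCompact_Icc
  have key := integral_divergence_prod_Icc_of_hasFDerivAt_of_le F G (fderiv ℝ F) (fderiv ℝ G)
    (a, -π) (b, π) ⟨hab.le, by simp [Real.pi_pos.le]⟩ hFc hGc hFd hGd
    (hDi.congr hval'.symm)
  rw [← integral_congr_ae hval', key]
  have hper : ex π = ex (-π) := by
    unfold ex; rw [Complex.exp_pi_mul_I]; push_cast
    rw [neg_mul, Complex.exp_neg, Complex.exp_pi_mul_I]; norm_num
  have hgg : (∫ x in a..b, G (x, π)) = ∫ x in a..b, G (x, -π) := by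
    simp only [hG, pc, hper]
  show ((∫ x in a..b, G (x, π)) - ∫ x in a..b, G (x, -π)) + (∫ y in (-π)..π, F (b, y))
    - ∫ y in (-π)..π, F (a, y) = _
  rw [hgg, sub_self, zero_add]
  rw [← intervalIntegral.integral_const_mul, ← intervalIntegral.integral_const_mul]
  simp only [hF, pc, mul_assoc]

end Pool.Agent.H792R3.Quad
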