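import Mathlib
import Pool.Agent.Helper123.Quad.ArcMeasure

open MeasureTheory Set Filter Topology Metric
open scoped ENNReal NNReal Real

namespace Pool.Agent.H792R3.Quad

/-- Arc length integrals over a simple closed curve with nonvanishing continuous speed. -/
lemma arc_int {γ : ℝ → ℂ} {w : ℝ → ℝ} {K : ℝ≥0} (hγ : LipschitzWith K γ)
    (hinj : InjOn γ (Ico 0 (2 * π))) (hw : Continuous w) (hw0 : ∀ θ, 0 ≤ w θ)
    (hder : ∀ θ, ∃ v : ℂ, ‖v‖ = w θ ∧ HasStrictDerivAt γ v θ)
    {F : ℂ → ℂ} (hF : ContinuousOn F (γ '' Ico 0 (2 * π))) (hK : IsCompact (γ '' Ico 0 (2 * π))) :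
    IntegrableOn F (γ '' Ico 0 (2 * π)) (μH[1] : Measure ℂ) ∧
    ∫ z in γ '' Ico 0 (2 * π), F z ∂μH[1] = ∫ θ in (0 : ℝ)..(2 * π), ((w θ : ℝ) : ℂ) * F (γ θ) := by
  have harc := _root_.Quad.arc_measure γ w K hγ hinj hw hw0 univ MeasurableSet.univ (by simp)
    (fun θ _ => hder θ)
  have hγm : Measurable γ := hγ.continuous.measurable
  have hWm : Measurable (fun θ => ENNReal.ofReal (w θ)) :=
    ENNReal.measurable_ofReal.comp hw.measurable
  have hms : MeasurableSet (γ '' Ico 0 (2 * π)) :=
    measurableSet_Ico.image_of_continuousOn_injOn hγ.continuous.continuousOn hinj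
  have hFm : AEStronglyMeasurable F ((μH[1] : Measure ℂ).restrict (γ '' Ico 0 (2 * π))) :=
    hF.aestronglyMeasurable hms
  have hwi : IntegrableOn w (Ico 0 (2 * π)) :=
    (hw.continuousOn.integrableOn_compact isCompact_Icc).mono_set Ico_subset_Icc_self
  have hfin : μH[1] (γ '' Ico 0 (2 * π)) < ⊤ := by
    have h1 := congr_arg (fun m => m univ) harc
    simp only [Measure.restrict_apply MeasurableSet.univ, univ_inter,
      Measure.map_apply hγm MeasurableSet.univ, preimage_univ,
      withDensity_apply _ MeasurableSet.univ, Measure.restrict_univ] at h1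
    rw [h1, ← ofReal_integral_eq_lintegral_ofReal hwi (Eventually.of_forall hw0)]
    exact ENNReal.ofReal_lt_top
  constructor
  · obtain ⟨C, hC⟩ := hK.exists_bound_of_continuousOn hF
    exact IntegrableOn.of_bound hfin hFm C
      ((ae_restrict_iff' hms).mpr (Eventually.of_forall hC))
  · rw [harc] at hFm ⊢
    rw [integral_map hγm.aemeasurable hFm,
      integral_withDensity_eq_integral_toReal_smul hWm
        (Filter.Eventually.of_forall (fun θ => ENNReal.ofReal_lt_top))]
    rw [intervalIntegral.integral_of_le (by positivity), ← integral_Icc_eq_integral_Ioc,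
      integral_Icc_eq_integral_Ico]
    congr 1
    ext θ
    rw [ENNReal.toReal_ofReal (hw0 θ), Complex.real_smul]

theorem det_mul (c : ℂ) :
    (((ContinuousLinearMap.toSpanSingleton ℂ c).restrictScalars ℝ : ℂ →L[ℝ] ℂ)).det = ‖c‖ ^ 2 := by
  rw [← Complex.normSq_eq_norm_sq, ← Algebra.norm_complex_apply, Algebra.norm_apply,
    ContinuousLinearMap.det]
  congr 1
  ext <;> simp [mul_comm]

end Pool.Agent.H792R3.Quad
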