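import Mathlib
import Pool.Agent.Helper164.QD.Final
import Pool.Agent.H792R3.Quad.Ann

open Complex Metric Set Filter Topology MeasureTheory
open scoped ComplexConjugate Real ContDiff

namespace Pool.Agent.H792R3.Quad

open Pool.Agent.Helper164.QD

/-- a smooth cutoff around the circle with centre `c` -/
noncomputable def cut (c : ℂ) (α β : ℝ) (z : ℂ) : ℝ :=
  Real.smoothTransition ((‖z - c‖ ^ 2 - α) / (β - α))

lemma cut_smooth (c : ℂ) (α β : ℝ) : ContDiff ℝ 1 (cut c α β) := by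
  unfold cut
  have h1 : ContDiff ℝ 1 (fun z : ℂ => (‖z - c‖ ^ 2 - α) / (β - α)) :=
    (((contDiff_id.sub contDiff_const).norm_sq ℝ).sub contDiff_const).div_const _
  have h2 : ContDiff ℝ 1 Real.smoothTransition := Real.smoothTransition.contDiff (n := 1)
  exact h2.comp h1

lemma cut_nonneg (c : ℂ) (α β : ℝ) (z : ℂ) : 0 ≤ cut c α β z := Real.smoothTransition.nonneg _

lemma cut_le_one (c : ℂ) (α β : ℝ) (z : ℂ) : cut c α β z ≤ 1 := Real.smoothTransition.le_one _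

lemma cut_fd0 {c : ℂ} {α β : ℝ} {z : ℂ} (h : cut c α β z = 0) : fderiv ℝ (cut c α β) z = 0 := by
  apply IsLocalMin.fderiv_eq_zero
  exact Eventually.of_forall (fun y => by rw [h]; exact cut_nonneg c α β y)

lemma cut_fd1 {c : ℂ} {α β : ℝ} {z : ℂ} (h : cut c α β z = 1) : fderiv ℝ (cut c α β) z = 0 := by
  apply IsLocalMax.fderiv_eq_zero
  exact Eventually.of_forall (fun y => by rw [h]; exact cut_le_one c α β y)

lemma cut_zero {c : ℂ} {α β : ℝ} {z : ℂ} (h : (‖z - c‖ ^ 2 - α) / (β - α) ≤ 0) :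
    cut c α β z = 0 := Real.smoothTransition.zero_of_nonpos h

lemma cut_one {c : ℂ} {α β : ℝ} {z : ℂ} (h : 1 ≤ (‖z - c‖ ^ 2 - α) / (β - α)) :
    cut c α β z = 1 := Real.smoothTransition.one_of_one_le h

/-- complex Cauchy-Riemann combination of the derivative of a real function -/
noncomputable def dr (u : ℂ → ℝ) (z : ℂ) : ℂ :=
  ((fderiv ℝ u z 1 : ℝ) : ℂ) + I * ((fderiv ℝ u z I : ℝ) : ℂ)

lemma dr_cont {u : ℂ → ℝ} (hu : ContDiff ℝ 1 u) : Continuous (dr u) := by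
  have h := hu.continuous_fderiv one_ne_zero
  unfold dr
  exact (Complex.continuous_ofReal.comp (h.clm_apply continuous_const)).add
    (continuous_const.mul (Complex.continuous_ofReal.comp (h.clm_apply continuous_const)))

/-- Green's formula in an annulus with a cutoff. -/
lemma green_cut {c : ℂ} {a b : ℝ} (ha : 0 < a) (hab : a < b) {v D : ℂ → ℂ}
    (hvc : ContinuousOn v (cann c a b)) (hD : ContinuousOn D (cann c a b))
    (hv : ∀ z ∈ oann c a b, DifferentiableAt ℝ v z)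
    (hvD : ∀ z ∈ oann c a b, fderiv ℝ v z 1 + I * fderiv ℝ v z I = D z)
    {u : ℂ → ℝ} (hu : ContDiff ℝ 1 u) :
    ∫ z in oann c a b, ((u z : ℂ) * D z + dr u z * v z)
      = b * (∫ t in (-π)..π, ex t * ((u (c + b * ex t) : ℂ) * v (c + b * ex t)))
      - a * ∫ t in (-π)..π, ex t * ((u (c + a * ex t) : ℂ) * v (c + a * ex t)) := by
  have hud : ∀ z, HasFDerivAt (fun z => (u z : ℂ)) (Complex.ofRealCLM.comp (fderiv ℝ u z)) z :=
    fun z => (Complex.ofRealCLM.hasFDerivAt).comp z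
      ((hu.differentiable one_ne_zero z).hasFDerivAt)
  have huc : Continuous (fun z => (u z : ℂ)) := Complex.continuous_ofReal.comp hu.continuous
  refine green_ann (w := fun z => (u z : ℂ) * v z)
    (w' := fun z => (u z : ℂ) • fderiv ℝ v z + (v z) • (Complex.ofRealCLM.comp (fderiv ℝ u z)))
    ha hab (huc.continuousOn.mul hvc)
    ((huc.continuousOn.mul hD).add ((dr_cont hu).continuousOn.mul hvc)) ?_ ?_
  · intro z hz
    exact (hud z).mul (hv z hz).hasFDerivAt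
  · intro z hz
    rw [← hvD z hz]
    show (u z : ℂ) * fderiv ℝ v z 1 + v z * ((fderiv ℝ u z 1 : ℝ) : ℂ)
      + I * ((u z : ℂ) * fderiv ℝ v z I + v z * ((fderiv ℝ u z I : ℝ) : ℂ)) = _
    unfold dr
    ring

/-- Integration by parts against a cutoff with compact support in an open set. -/
lemma parts {O K : Set ℂ} (hO : IsOpen O) (hK : IsCompact K) (hKO : K ⊆ O) {v D : ℂ → ℂ}
    (hvc : ContDiffOn ℝ 1 v O)
    (hvD : ∀ z ∈ O, fderiv ℝ v z 1 + I * fderiv ℝ v z I = D z)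
    {u : ℂ → ℝ} (hu : ContDiff ℝ 1 u) (hs : ∀ z ∉ K, u z = 0) (hs' : ∀ z ∉ K, fderiv ℝ u z = 0) :
    ∫ z in O, ((u z : ℂ) * D z + dr u z * v z) = 0 := by
  have hfv : ContinuousOn (fderiv ℝ v) O := hvc.continuousOn_fderiv_of_isOpen hO le_rfl
  have hfu : Continuous (fderiv ℝ u) := hu.continuous_fderiv one_ne_zero
  have hts : tsupport u ⊆ K := by
    apply closure_minimal _ hK.isClosed
    intro z hz
    by_contra h
    exact hz (hs z h)
  have hint : ∀ g : ℂ → ℂ, ContinuousOn g K → (∀ z ∉ K, g z = 0) → Integrable g := by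
    intro g h1 h2
    rw [← integrableOn_iff_integrable_of_support_subset (s := K)]
    · exact h1.integrableOn_compact hK
    · intro z hz
      by_contra h
      exact hz (h2 z h)
  have hvK : ContinuousOn v K := hvc.continuousOn.mono hKO
  have hI1 : ∀ e : ℂ, Integrable (fun z => fderiv ℝ u z e • v z) := by
    intro e
    refine hint _ ((hfu.clm_apply continuous_const).continuousOn.smul hvK) ?_
    intro z hz
    rw [hs' z hz]; simp
  have hI2 : ∀ e : ℂ, Integrable (fun z => u z • fderiv ℝ v z e) := by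
    intro e
    refine hint _ (hu.continuous.continuousOn.smul
      ((hfv.mono hKO).clm_apply continuousOn_const)) ?_
    intro z hz
    rw [hs z hz]; simp
  have hI3 : Integrable (fun z => u z • v z) := by
    refine hint _ (hu.continuous.continuousOn.smul hvK) ?_
    intro z hz
    rw [hs z hz]; simp
  have key : ∀ e : ℂ, ∫ z, u z • fderiv ℝ v z e = - ∫ z, fderiv ℝ u z e • v z := fun e =>
    integral_smul_fderiv_eq_neg_fderiv_smul_of_integrable (hI1 e) (hI2 e) hI3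
      (fun z _ => hu.differentiable one_ne_zero z)
      (fun z hz => (hvc.contDiffAt (hO.mem_nhds (hKO (hts hz)))).differentiableAt one_ne_zero)
  have hout : ∀ z ∉ O, (u z : ℂ) * D z + dr u z * v z = 0 := by
    intro z hz
    have hzK : z ∉ K := fun h => hz (hKO h)
    unfold dr
    rw [hs z hzK, hs' z hzK]; simp
  rw [setIntegral_eq_integral_of_forall_compl_eq_zero hout]
  have e1 : ∀ z, (u z : ℂ) * D z + dr u z * v z =
      (u z • fderiv ℝ v z 1 + fderiv ℝ u z 1 • v z)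
        + I * (u z • fderiv ℝ v z I + fderiv ℝ u z I • v z) := by
    intro z
    by_cases hz : z ∈ O
    · rw [← hvD z hz]
      unfold dr
      simp only [Complex.real_smul]
      ring
    · rw [hout z hz]
      have hzK : z ∉ K := fun h => hz (hKO h)
      rw [hs z hzK, hs' z hzK]; simp
  simp_rw [e1]
  have i1 : Integrable (fun z => u z • fderiv ℝ v z 1 + fderiv ℝ u z 1 • v z) :=
    (hI2 1).add (hI1 1)
  have i2 : Integrable (fun z => I * (u z • fderiv ℝ v z I + fderiv ℝ u z I • v z)) :=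
    ((hI2 I).add (hI1 I)).const_mul I
  rw [integral_add i1 i2,
    integral_const_mul, integral_add (hI2 1) (hI1 1), integral_add (hI2 I) (hI1 I),
    key 1, key I]
  simp

/-- the three cutoffs -/
noncomputable def u0 : ℂ → ℝ := cut 0 (98 ^ 2) (99 ^ 2)
noncomputable def u1 : ℂ → ℝ := cut 1 (1 / 4) (1 / 16)
noncomputable def u2 : ℂ → ℝ := cut (-1) (1 / 4) (1 / 16)

lemma u0_zero {z : ℂ} (h : ‖z‖ ≤ 98) : u0 z = 0 := by
  apply cut_zero
  rw [sub_zero]
  have : ‖z‖ ^ 2 ≤ 98 ^ 2 := by gcongr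
  apply div_nonpos_of_nonpos_of_nonneg <;> linarith

lemma u0_one {z : ℂ} (h : 99 ≤ ‖z‖) : u0 z = 1 := by
  apply cut_one
  rw [sub_zero]
  have : (99:ℝ) ^ 2 ≤ ‖z‖ ^ 2 := by gcongr
  rw [le_div_iff₀ (by norm_num)]
  linarith

lemma ui_zero {c z : ℂ} (h : 1 / 2 ≤ ‖z - c‖) : cut c (1 / 4) (1 / 16) z = 0 := by
  apply cut_zero
  have : (1 / 2 : ℝ) ^ 2 ≤ ‖z - c‖ ^ 2 := by gcongr
  apply div_nonpos_of_nonneg_of_nonpos <;> linarith

lemma ui_one {c z : ℂ} (h : ‖z - c‖ ≤ 1 / 4) : cut c (1 / 4) (1 / 16) z = 1 := by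
  apply cut_one
  have : ‖z - c‖ ^ 2 ≤ (1 / 4 : ℝ) ^ 2 := by gcongr
  rw [le_div_iff_of_neg (by norm_num)]
  linarith

lemma u1_zero {z : ℂ} (h : 1 / 2 ≤ ‖z - 1‖) : u1 z = 0 := ui_zero h
lemma u1_one {z : ℂ} (h : ‖z - 1‖ ≤ 1 / 4) : u1 z = 1 := ui_one h
lemma u2_zero {z : ℂ} (h : 1 / 2 ≤ ‖z + 1‖) : u2 z = 0 := ui_zero (by rwa [sub_neg_eq_add])
lemma u2_one {z : ℂ} (h : ‖z + 1‖ ≤ 1 / 4) : u2 z = 1 := ui_one (by rwa [sub_neg_eq_add])

lemma dr_zero {u : ℂ → ℝ} {z : ℂ} (h : fderiv ℝ u z = 0) : dr u z = 0 := by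
  unfold dr; rw [h]; simp

lemma near1 {z : ℂ} (h : ‖z - 1‖ ≤ 1 / 2) : ‖z‖ ≤ 98 ∧ 1 / 2 ≤ ‖z + 1‖ := by
  have h1 : ‖z‖ ≤ ‖z - 1‖ + 1 := by
    have := norm_add_le (z - 1) 1
    rwa [sub_add_cancel, norm_one] at this
  have h2 : 2 ≤ ‖z + 1‖ + ‖z - 1‖ := by
    have := norm_sub_le (z + 1) (z - 1)
    have e : z + 1 - (z - 1) = 2 := by ring
    rw [e] at this
    simpa using this
  constructor <;> linarith

lemma near2 {z : ℂ} (h : ‖z + 1‖ ≤ 1 / 2) : ‖z‖ ≤ 98 ∧ 1 / 2 ≤ ‖z - 1‖ := by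
  have h1 : ‖z‖ ≤ ‖z + 1‖ + 1 := by
    have := norm_sub_le (z + 1) 1
    rwa [add_sub_cancel_right, norm_one] at this
  have h2 : 2 ≤ ‖z + 1‖ + ‖z - 1‖ := by
    have := norm_sub_le (z + 1) (z - 1)
    have e : z + 1 - (z - 1) = 2 := by ring
    rw [e] at this
    simpa using this
  constructor <;> linarith

lemma far {z : ℂ} (h : 98 ≤ ‖z‖) : 1 / 2 ≤ ‖z - 1‖ ∧ 1 / 2 ≤ ‖z + 1‖ := by
  have h1 : ‖z‖ ≤ ‖z - 1‖ + 1 := by
    have := norm_add_le (z - 1) 1
    rwa [sub_add_cancel, norm_one] at this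
  have h2 : ‖z‖ ≤ ‖z + 1‖ + 1 := by
    have := norm_sub_le (z + 1) 1
    rwa [add_sub_cancel_right, norm_one] at this
  constructor <;> linarith

/-- **Green's formula** in the disc with two holes. -/
theorem green_dom {d ρ : ℝ} (hd : 0 < d) (hd' : d ≤ 1 / 1000) (hρ : 100 ≤ ρ) {v D : ℂ → ℂ}
    (hvc : ContinuousOn v (Reg d ρ)) (hD : ContinuousOn D (Reg d ρ))
    (hv : ContDiffOn ℝ 1 v (Dom d ρ))
    (hvD : ∀ z ∈ Dom d ρ, fderiv ℝ v z 1 + I * fderiv ℝ v z I = D z) :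
    ∫ z in Dom d ρ, D z = (ρ * ∫ t in (-π)..π, ex t * v (ρ * ex t))
      - (d * ∫ t in (-π)..π, ex t * v (1 + d * ex t))
      - (d * ∫ t in (-π)..π, ex t * v (-1 + d * ex t)) := by
  have hu0 : ContDiff ℝ 1 u0 := cut_smooth _ _ _
  have hu1 : ContDiff ℝ 1 u1 := cut_smooth _ _ _
  have hu2 : ContDiff ℝ 1 u2 := cut_smooth _ _ _
  set χ : ℂ → ℝ := fun z => 1 - u0 z - u1 z - u2 z with hχdef
  have hχ : ContDiff ℝ 1 χ := ((contDiff_const.sub hu0).sub hu1).sub hu2
  have hDm : MeasurableSet (Dom d ρ) := (Dom_open d ρ).measurableSet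
  -- the derivative of the sum
  have hdχ : ∀ z, fderiv ℝ χ z = -fderiv ℝ u0 z - fderiv ℝ u1 z - fderiv ℝ u2 z := by
    intro z
    have h0 := (hu0.differentiable one_ne_zero z).hasFDerivAt
    have h1 := (hu1.differentiable one_ne_zero z).hasFDerivAt
    have h2 := (hu2.differentiable one_ne_zero z).hasFDerivAt
    have := (((h0.const_sub 1).sub h1).sub h2).fderiv
    exact this
  have hdrχ : ∀ z, dr χ z = -dr u0 z - dr u1 z - dr u2 z := by
    intro z
    unfold dr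
    rw [hdχ z]
    simp only [ContinuousLinearMap.sub_apply, ContinuousLinearMap.neg_apply]
    push_cast
    ring
  have hfd0 : ∀ z, u0 z = 0 ∨ u0 z = 1 → fderiv ℝ u0 z = 0 := fun z h =>
    h.elim cut_fd0 cut_fd1
  have hfd1 : ∀ z, u1 z = 0 ∨ u1 z = 1 → fderiv ℝ u1 z = 0 := fun z h =>
    h.elim cut_fd0 cut_fd1
  have hfd2 : ∀ z, u2 z = 0 ∨ u2 z = 1 → fderiv ℝ u2 z = 0 := fun z h =>
    h.elim cut_fd0 cut_fd1
  -- outside the compact set
  have houtK : ∀ z ∉ Reg (1 / 4) 99, χ z = 0 ∧ fderiv ℝ χ z = 0 := by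
    intro z hz
    rw [hdχ]
    by_cases h1 : ‖z‖ ≤ 99
    · by_cases h2 : 1 / 4 ≤ ‖z - 1‖
      · have h3 : ‖z + 1‖ < 1 / 4 := by
          by_contra h3
          exact hz ⟨h1, h2, not_lt.mp h3⟩
        obtain ⟨n1, n2⟩ := near2 (z := z) (by linarith)
        have a0 := u0_zero n1
        have a1 := u1_zero n2
        have a2 := u2_one h3.le
        rw [hfd0 z (Or.inl a0), hfd1 z (Or.inl a1), hfd2 z (Or.inr a2)]
        constructor
        · show 1 - u0 z - u1 z - u2 z = 0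
          rw [a0, a1, a2]; norm_num
        · simp
      · have h3 : ‖z - 1‖ < 1 / 4 := not_le.mp h2
        obtain ⟨n1, n2⟩ := near1 (z := z) (by linarith)
        have a0 := u0_zero n1
        have a1 := u1_one h3.le
        have a2 := u2_zero n2
        rw [hfd0 z (Or.inl a0), hfd1 z (Or.inr a1), hfd2 z (Or.inl a2)]
        constructor
        · show 1 - u0 z - u1 z - u2 z = 0
          rw [a0, a1, a2]; norm_num
        · simp
    · have h3 : 99 < ‖z‖ := not_le.mp h1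
      obtain ⟨n1, n2⟩ := far (z := z) (by linarith)
      have a0 := u0_one h3.le
      have a1 := u1_zero n1
      have a2 := u2_zero n2
      rw [hfd0 z (Or.inr a0), hfd1 z (Or.inl a1), hfd2 z (Or.inl a2)]
      constructor
      · show 1 - u0 z - u1 z - u2 z = 0
        rw [a0, a1, a2]; norm_num
      · simp
  have hKO : Reg (1 / 4) 99 ⊆ Dom d ρ := fun z hz =>
    ⟨by linarith [hz.1], by linarith [hz.2.1], by linarith [hz.2.2]⟩
  have hA := parts (Dom_open d ρ) (Reg_compact (1 / 4) 99) hKO hv hvD hχ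
    (fun z hz => (houtK z hz).1) (fun z hz => (houtK z hz).2)
  -- the three annuli
  have inD0 : oann 0 98 ρ ⊆ Dom d ρ := by
    rintro z ⟨h1, h2⟩
    rw [sub_zero] at h1 h2
    obtain ⟨n1, n2⟩ := far (z := z) (by linarith)
    exact ⟨h2, by linarith, by linarith⟩
  have inR0 : cann 0 98 ρ ⊆ Reg d ρ := by
    rintro z ⟨h1, h2⟩
    rw [sub_zero] at h1 h2
    obtain ⟨n1, n2⟩ := far (z := z) (by linarith)
    exact ⟨h2, by linarith, by linarith⟩
  have inD1 : oann 1 d (1 / 2) ⊆ Dom d ρ := by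
    rintro z ⟨h1, h2⟩
    obtain ⟨n1, n2⟩ := near1 (z := z) h2.le
    exact ⟨by linarith, h1, by linarith⟩
  have inR1 : cann 1 d (1 / 2) ⊆ Reg d ρ := by
    rintro z ⟨h1, h2⟩
    obtain ⟨n1, n2⟩ := near1 (z := z) h2
    exact ⟨by linarith, h1, by linarith⟩
  have inD2 : oann (-1) d (1 / 2) ⊆ Dom d ρ := by
    rintro z ⟨h1, h2⟩
    rw [sub_neg_eq_add] at h1 h2
    obtain ⟨n1, n2⟩ := near2 (z := z) h2.le
    exact ⟨by linarith, by linarith, h1⟩
  have inR2 : cann (-1) d (1 / 2) ⊆ Reg d ρ := by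
    rintro z ⟨h1, h2⟩
    rw [sub_neg_eq_add] at h1 h2
    obtain ⟨n1, n2⟩ := near2 (z := z) h2
    exact ⟨by linarith, by linarith, h1⟩
  have hvda : ∀ z ∈ Dom d ρ, DifferentiableAt ℝ v z := fun z hz =>
    (hv.contDiffAt ((Dom_open d ρ).mem_nhds hz)).differentiableAt one_ne_zero
  have B0 := green_cut (c := 0) (a := 98) (b := ρ) (by norm_num) (by linarith) (hvc.mono inR0)
    (hD.mono inR0) (fun z hz => hvda z (inD0 hz)) (fun z hz => hvD z (inD0 hz)) hu0
  have B1 := green_cut (c := 1) (a := d) (b := 1 / 2) hd (by linarith) (hvc.mono inR1)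
    (hD.mono inR1) (fun z hz => hvda z (inD1 hz)) (fun z hz => hvD z (inD1 hz)) hu1
  have B2 := green_cut (c := -1) (a := d) (b := 1 / 2) hd (by linarith) (hvc.mono inR2)
    (hD.mono inR2) (fun z hz => hvda z (inD2 hz)) (fun z hz => hvD z (inD2 hz)) hu2
  -- from the annuli to the domain
  have C0 : ∫ z in Dom d ρ, ((u0 z : ℂ) * D z + dr u0 z * v z)
      = ∫ z in oann 0 98 ρ, ((u0 z : ℂ) * D z + dr u0 z * v z) := by
    refine setIntegral_eq_of_subset_of_forall_sdiff_eq_zero hDm inD0 ?_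
    rintro z ⟨h1, h2⟩
    have h3 : ‖z‖ ≤ 98 := by
      by_contra h
      exact h2 ⟨by rw [sub_zero]; exact not_le.mp h, by rw [sub_zero]; exact h1.1⟩
    have a0 := u0_zero h3
    rw [a0, dr_zero (hfd0 z (Or.inl a0))]; simp
  have C1 : ∫ z in Dom d ρ, ((u1 z : ℂ) * D z + dr u1 z * v z)
      = ∫ z in oann 1 d (1 / 2), ((u1 z : ℂ) * D z + dr u1 z * v z) := by
    refine setIntegral_eq_of_subset_of_forall_sdiff_eq_zero hDm inD1 ?_
    rintro z ⟨h1, h2⟩
    have h3 : 1 / 2 ≤ ‖z - 1‖ := by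
      by_contra h
      exact h2 ⟨h1.2.1, not_le.mp h⟩
    have a0 := u1_zero h3
    rw [a0, dr_zero (hfd1 z (Or.inl a0))]; simp
  have C2 : ∫ z in Dom d ρ, ((u2 z : ℂ) * D z + dr u2 z * v z)
      = ∫ z in oann (-1) d (1 / 2), ((u2 z : ℂ) * D z + dr u2 z * v z) := by
    refine setIntegral_eq_of_subset_of_forall_sdiff_eq_zero hDm inD2 ?_
    rintro z ⟨h1, h2⟩
    have h3 : 1 / 2 ≤ ‖z + 1‖ := by
      by_contra h
      exact h2 ⟨by rw [sub_neg_eq_add]; exact h1.2.2, by rw [sub_neg_eq_add]; exact not_le.mp h⟩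
    have a0 := u2_zero h3
    rw [a0, dr_zero (hfd2 z (Or.inl a0))]; simp
  -- integrability
  have hI : ∀ u : ℂ → ℝ, ContDiff ℝ 1 u →
      IntegrableOn (fun z => (u z : ℂ) * D z + dr u z * v z) (Dom d ρ) := by
    intro u hu
    refine IntegrableOn.mono_set (t := Reg d ρ) ?_ (Dom_sub_Reg d ρ)
    exact ((((Complex.continuous_ofReal.comp hu.continuous).continuousOn).mul hD).add
      ((dr_cont hu).continuousOn.mul hvc)).integrableOn_compact (Reg_compact d ρ)
  have hsum : ∫ z in Dom d ρ, D z = (∫ z in Dom d ρ, ((χ z : ℂ) * D z + dr χ z * v z))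
      + ((∫ z in Dom d ρ, ((u0 z : ℂ) * D z + dr u0 z * v z))
      + ((∫ z in Dom d ρ, ((u1 z : ℂ) * D z + dr u1 z * v z))
      + ∫ z in Dom d ρ, ((u2 z : ℂ) * D z + dr u2 z * v z))) := by
    have i12 : IntegrableOn (fun z => ((u1 z : ℂ) * D z + dr u1 z * v z)
        + ((u2 z : ℂ) * D z + dr u2 z * v z)) (Dom d ρ) := (hI u1 hu1).add (hI u2 hu2)
    have i012 : IntegrableOn (fun z => ((u0 z : ℂ) * D z + dr u0 z * v z)
        + (((u1 z : ℂ) * D z + dr u1 z * v z)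
        + ((u2 z : ℂ) * D z + dr u2 z * v z))) (Dom d ρ) := (hI u0 hu0).add i12
    rw [← integral_add (hI u1 hu1) (hI u2 hu2), ← integral_add (hI u0 hu0) i12,
      ← integral_add (hI χ hχ) i012]
    refine integral_congr_ae (Eventually.of_forall (fun z => ?_))
    show D z = ((χ z : ℂ) * D z + dr χ z * v z) + (((u0 z : ℂ) * D z + dr u0 z * v z)
      + (((u1 z : ℂ) * D z + dr u1 z * v z) + ((u2 z : ℂ) * D z + dr u2 z * v z)))
    rw [hdrχ z]
    have : (χ z : ℂ) = 1 - u0 z - u1 z - u2 z := by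
      rw [hχdef]; push_cast; ring
    rw [this]; ring
  rw [hsum, hA, C0, C1, C2, B0, B1, B2]
  -- boundary values
  have n1 : ∀ (c : ℂ) (r t : ℝ), 0 ≤ r → ‖c + r * ex t - c‖ = r := fun c r t hr =>
    pc_norm c (p := (r, t)) hr
  have b0 : ∀ t, u0 (0 + ρ * ex t) = 1 := fun t => u0_one (by
    have := n1 0 ρ t (by linarith)
    rw [sub_zero] at this; rw [this]; linarith)
  have b0' : ∀ t, u0 (0 + (98 : ℝ) * ex t) = 0 := fun t => u0_zero (by
    have := n1 0 98 t (by norm_num)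
    rw [sub_zero] at this; rw [this])
  have b1 : ∀ t, u1 (1 + d * ex t) = 1 := fun t => u1_one (by
    rw [n1 1 d t hd.le]; linarith)
  have b1' : ∀ t, u1 (1 + ((1 / 2 : ℝ) : ℂ) * ex t) = 0 := fun t => u1_zero (by
    rw [n1 1 (1 / 2) t (by norm_num)])
  have b2 : ∀ t, u2 (-1 + d * ex t) = 1 := fun t => ui_one (by
    rw [n1 (-1) d t hd.le]; linarith)
  have b2' : ∀ t, u2 (-1 + ((1 / 2 : ℝ) : ℂ) * ex t) = 0 := fun t => ui_zero (by
    rw [n1 (-1) (1 / 2) t (by norm_num)])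
  simp_rw [b0, b0', b1, b1', b2, b2']
  simp only [Complex.ofReal_one, Complex.ofReal_zero, one_mul,
    zero_mul, mul_zero, zero_add, intervalIntegral.integral_zero, sub_zero, zero_sub]
  ring

end Pool.Agent.H792R3.Quad
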