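import Mathlib
import Pool.Agent.H792R3.Quad.Green
import Pool.Agent.H792R3.Quad.Arc

open Complex Metric Set Filter Topology MeasureTheory
open scoped ComplexConjugate Real ContDiff NNReal

namespace Pool.Agent.H792R3.Quad

open Pool.Agent.Helper164.QD
open Pool.Agent.Helper164.Topo (frontier_image open_image)

/-- the boundary curve with period `2 π` -/
noncomputable def gam (f : ℂ → ℂ) (c : ℂ) (r : ℝ) (t : ℝ) : ℂ := f (c + r * ex t)

/-- The derivative of a product of a holomorphic and a real differentiable function. -/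
lemma dbar_prod {h g : ℂ → ℂ} {h' a b z : ℂ} (hh : HasDerivAt h h' z) {g' : ℂ →L[ℝ] ℂ}
    (hg : HasFDerivAt g g' z) (h1 : g' 1 = conj a + b) (h2 : g' I = -I * conj a + I * b) :
    fderiv ℝ (fun z => h z * g z) z 1 + I * fderiv ℝ (fun z => h z * g z) z I
      = 2 * h z * conj a := by
  have e1 := (hh.hasFDerivAt.restrictScalars ℝ).mul hg
  rw [HasFDerivAt.fderiv (f := fun z => h z * g z) e1]
  show (h z * g' 1 + g z * ((1 : ℂ) • h')) + I * (h z * g' I + g z * (I • h')) = _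
  rw [h1, h2, smul_eq_mul, smul_eq_mul]
  linear_combination (g z * h' - h z * conj a + h z * b) * I_mul_I

/-- The key identity, in complex form. -/
theorem key {d ρ c : ℝ} {f k G : ℂ → ℂ} (hd : 0 < d) (hd' : d ≤ 1 / 1000) (hρ : 100 ≤ ρ)
    (hf : ∀ z ∈ Wr d ρ, HasDerivAt f (k z) z)
    (hkd : DifferentiableOn ℂ k (Wr d ρ)) (hGd : DifferentiableOn ℂ G (Wr d ρ))
    (hinj : InjOn f (Wr d ρ))
    (rel0 : ∀ z : ℂ, ‖z‖ = ρ → (G z + conj (f z)) * k z * z = ((2 * c * ρ * ‖k z‖ : ℝ) : ℂ))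
    (rel1 : ∀ z : ℂ, ‖z - 1‖ = d → (G z + conj (f z)) * k z * (z - 1)
      = ((-(2 * c * d * ‖k z‖) : ℝ) : ℂ))
    (rel2 : ∀ z : ℂ, ‖z + 1‖ = d → (G z + conj (f z)) * k z * (z + 1)
      = ((-(2 * c * d * ‖k z‖) : ℝ) : ℂ))
    {F : ℂ → ℂ} (hF : ContinuousOn F (f '' Reg d ρ)) (hFd : DifferentiableOn ℂ F (f '' Dom d ρ)) :
    ∫ z in f '' Dom d ρ, F z
      = c * ((∫ t in (-π)..π, ((ρ * ‖k (0 + ρ * ex t)‖ : ℝ) : ℂ) * F (gam f 0 ρ t))
        + (∫ t in (-π)..π, ((d * ‖k (1 + d * ex t)‖ : ℝ) : ℂ) * F (gam f 1 d t))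
        + (∫ t in (-π)..π, ((d * ‖k (-1 + d * ex t)‖ : ℝ) : ℂ) * F (gam f (-1) d t))) := by
  have hWo := Wr_open d ρ
  have hRW : Reg d ρ ⊆ Wr d ρ := fun z hz => ⟨by linarith [hz.1], by linarith [hz.2.1],
    by linarith [hz.2.2]⟩
  have hDW : Dom d ρ ⊆ Wr d ρ := (Dom_sub_Reg d ρ).trans hRW
  have hfd : DifferentiableOn ℂ f (Wr d ρ) := fun z hz =>
    (hf z hz).differentiableAt.differentiableWithinAt
  have hDo := Dom_open d ρ
  -- the functions
  set h : ℂ → ℂ := fun z => F (f z) * k z with hh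
  set g : ℂ → ℂ := fun z => conj (f z) + G z with hg
  have hFf : ContinuousOn (fun z => F (f z)) (Reg d ρ) :=
    hF.comp (hfd.continuousOn.mono hRW) (mapsTo_image f _)
  have hhc : ContinuousOn h (Reg d ρ) := hFf.mul (hkd.continuousOn.mono hRW)
  have hgc : ContinuousOn g (Reg d ρ) :=
    (Complex.continuous_conj.comp_continuousOn (hfd.continuousOn.mono hRW)).add
      (hGd.continuousOn.mono hRW)
  have hhd : DifferentiableOn ℂ h (Dom d ρ) :=
    (hFd.comp (hfd.mono hDW) (mapsTo_image f _)).mul (hkd.mono hDW)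
  have hkc : ContinuousOn k (Reg d ρ) := hkd.continuousOn.mono hRW
  have hv : ContDiffOn ℝ 1 (fun z => h z * g z) (Dom d ρ) := by
    have a1 : ContDiffOn ℝ 1 h (Dom d ρ) := (hhd.contDiffOn hDo).restrict_scalars ℝ
    have a2 : ContDiffOn ℝ 1 f (Dom d ρ) := ((hfd.mono hDW).contDiffOn hDo).restrict_scalars ℝ
    have a3 : ContDiffOn ℝ 1 G (Dom d ρ) := ((hGd.mono hDW).contDiffOn hDo).restrict_scalars ℝ
    have a4 : ContDiffOn ℝ 1 (fun z => conj (f z)) (Dom d ρ) :=
      (Complex.conjCLE.contDiff (n := 1)).comp_contDiffOn a2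
    exact a1.mul (a4.add a3)
  have hvD : ∀ z ∈ Dom d ρ, fderiv ℝ (fun z => h z * g z) z 1
      + I * fderiv ℝ (fun z => h z * g z) z I = 2 * h z * conj (k z) := by
    intro z hz
    have b1 : HasDerivAt h (deriv h z) z := (hhd.differentiableAt (hDo.mem_nhds hz)).hasDerivAt
    have b2 := (hf z (hDW hz)).hasFDerivAt.restrictScalars ℝ
    have b3 : HasDerivAt G (deriv G z) z :=
      (hGd.differentiableAt (hWo.mem_nhds (hDW hz))).hasDerivAt
    have b4 := b3.hasFDerivAt.restrictScalars ℝ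
    have b5 : HasFDerivAt (fun z => conj (f z)) _ z :=
      (Complex.conjCLE : ℂ →L[ℝ] ℂ).hasFDerivAt.comp z b2
    refine dbar_prod (b := deriv G z) b1 (b5.add b4) ?_ ?_
    · show conj ((1 : ℂ) • k z) + (1 : ℂ) • deriv G z = _
      rw [one_smul, one_smul]
    · show conj (I • k z) + I • deriv G z = _
      rw [smul_eq_mul, smul_eq_mul, map_mul, Complex.conj_I]
  have green := green_dom (v := fun z => h z * g z) (D := fun z => 2 * h z * conj (k z))
    hd hd' hρ (hhc.mul hgc)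
    ((continuousOn_const.mul hhc).mul (Complex.continuous_conj.comp_continuousOn hkc)) hv hvD
  -- change of variables
  have harea : ∫ z in f '' Dom d ρ, F z = ∫ z in Dom d ρ, ((‖k z‖ ^ 2 : ℝ) : ℂ) * F (f z) := by
    rw [integral_image_eq_integral_abs_det_fderiv_smul (volume : Measure ℂ)
      (s := Dom d ρ) (f := f)
      (f' := fun z => ((ContinuousLinearMap.toSpanSingleton ℂ (k z)).restrictScalars ℝ))
      hDo.measurableSet
      (fun z hz => ((hf z (hDW hz)).hasFDerivAt.restrictScalars ℝ).hasFDerivWithinAt)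
      (hinj.mono hDW) F]
    congr 1
    ext z
    rw [det_mul, abs_of_nonneg (by positivity), Complex.real_smul]
  have harea2 : ∫ z in Dom d ρ, ((‖k z‖ ^ 2 : ℝ) : ℂ) * F (f z)
      = (1 / 2) * ∫ z in Dom d ρ, 2 * h z * conj (k z) := by
    rw [← integral_const_mul]
    congr 1
    ext z
    rw [hh]
    have : ((‖k z‖ ^ 2 : ℝ) : ℂ) = k z * conj (k z) := by
      rw [Complex.mul_conj, Complex.normSq_eq_norm_sq]
    rw [this]; ring
  rw [harea, harea2, green]
  -- the boundary terms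
  have t0 : ∀ t : ℝ, ρ * (ex t * (h (ρ * ex t) * g (ρ * ex t)))
      = 2 * c * (((ρ * ‖k (0 + ρ * ex t)‖ : ℝ) : ℂ) * F (gam f 0 ρ t)) := by
    intro t
    have hn : ‖(ρ : ℂ) * ex t‖ = ρ := by
      rw [norm_mul, ex_norm, mul_one, Complex.norm_real, Real.norm_of_nonneg (by linarith)]
    have hr := rel0 _ hn
    unfold gam
    rw [zero_add, hh, hg]
    push_cast at hr ⊢
    linear_combination (F (f (ρ * ex t))) * hr
  have t1 : ∀ t : ℝ, d * (ex t * (h (1 + d * ex t) * g (1 + d * ex t)))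
      = -(2 * c * (((d * ‖k (1 + d * ex t)‖ : ℝ) : ℂ) * F (gam f 1 d t))) := by
    intro t
    have hn : ‖1 + (d : ℂ) * ex t - 1‖ = d := pc_norm 1 (p := (d, t)) hd.le
    have hr := rel1 _ hn
    unfold gam
    rw [hh, hg]
    push_cast at hr ⊢
    linear_combination (F (f (1 + d * ex t))) * hr
  have t2 : ∀ t : ℝ, d * (ex t * (h (-1 + d * ex t) * g (-1 + d * ex t)))
      = -(2 * c * (((d * ‖k (-1 + d * ex t)‖ : ℝ) : ℂ) * F (gam f (-1) d t))) := by
    intro t
    have hn : ‖-1 + (d : ℂ) * ex t + 1‖ = d := by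
      have := pc_norm (-1) (p := (d, t)) hd.le
      rwa [sub_neg_eq_add] at this
    have hr := rel2 _ hn
    unfold gam
    rw [hh, hg]
    push_cast at hr ⊢
    linear_combination (F (f (-1 + d * ex t))) * hr
  rw [← intervalIntegral.integral_const_mul, ← intervalIntegral.integral_const_mul,
    ← intervalIntegral.integral_const_mul]
  simp_rw [t0, t1, t2]
  rw [intervalIntegral.integral_neg, intervalIntegral.integral_neg,
    intervalIntegral.integral_const_mul, intervalIntegral.integral_const_mul,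
    intervalIntegral.integral_const_mul]
  ring

end Pool.Agent.H792R3.Quad
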