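import Mathlib
import Pool.Agent.H792R3.Quad.Main

open Complex Metric Set Filter Topology MeasureTheory
open scoped ComplexConjugate Real NNReal ENNReal

namespace Pool.Agent.H792R3.Quad

lemma ex_injOn : InjOn ex (Ico 0 (2 * π)) := by
  intro a ha b hb hab
  unfold ex at hab
  rw [Complex.exp_eq_exp_iff_exists_int] at hab
  obtain ⟨n, hn⟩ := hab
  have h1 : (a : ℂ) = b + n * (2 * π) := by
    have h2 : (a : ℂ) * Complex.I = (b + n * (2 * π)) * Complex.I := by
      rw [hn]; ring
    exact mul_right_cancel₀ Complex.I_ne_zero h2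
  have h3 : a = b + n * (2 * π) := by exact_mod_cast h1
  have hpi := Real.pi_pos
  have h4 : (n : ℝ) < 1 := by
    by_contra h
    push Not at h
    have : (1 : ℝ) * (2 * π) ≤ n * (2 * π) := by gcongr
    linarith [ha.1, ha.2, hb.1, hb.2]
  have h5 : (-1 : ℝ) < n := by
    by_contra h
    push Not at h
    have : (n : ℝ) * (2 * π) ≤ (-1) * (2 * π) := by gcongr
    linarith [ha.1, ha.2, hb.1, hb.2]
  have h6 : n = 0 := by
    have h7 : n < 1 := by exact_mod_cast h4
    have h8 : -1 < n := by exact_mod_cast h5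
    omega
  rw [h6] at h3
  simpa using h3

lemma ex_per : Function.Periodic ex (2 * π) := by
  intro t
  unfold ex
  push_cast
  rw [add_mul, Complex.exp_add, Complex.exp_two_pi_mul_I, mul_one]

lemma ex_strict (t : ℝ) : HasStrictDerivAt ex (I * ex t) t := by
  have h1 : HasStrictDerivAt (fun s : ℝ => (s : ℂ) * I) (1 * I) t :=
    Complex.ofRealCLM.hasStrictDerivAt.mul_const I
  have h2 := h1.cexp
  refine h2.congr_deriv ?_
  unfold ex; ring

lemma sphere_eq {c : ℂ} {r : ℝ} (hr : 0 < r) :
    (fun t : ℝ => c + r * ex t) '' Ico 0 (2 * π) = sphere c r := by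
  apply Subset.antisymm
  · rintro _ ⟨t, -, rfl⟩
    rw [mem_sphere_iff_norm]
    exact pc_norm c (p := (r, t)) hr.le
  · intro z hz
    rw [← abs_of_pos hr, ← range_circleMap] at hz
    obtain ⟨t, rfl⟩ := hz
    obtain ⟨s, hs, he⟩ := ex_per.exists_mem_Ico₀ (by positivity : (0:ℝ) < 2 * π) t
    refine ⟨s, hs, ?_⟩
    show c + r * ex s = c + r * ex t
    rw [← he]

/-- Arc length integration over the image of a circle under an injective holomorphic map. -/
lemma curve {f k : ℂ → ℂ} {W : Set ℂ} (hW : IsOpen W) (hf : ∀ z ∈ W, HasDerivAt f (k z) z)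
    (hk : ContinuousOn k W) (hinj : InjOn f W) {c : ℂ} {r : ℝ} (hr : 0 < r)
    (hs : sphere c r ⊆ W) {F : ℂ → ℂ} (hF : ContinuousOn F (f '' sphere c r)) :
    IntegrableOn F (f '' sphere c r) (μH[1] : Measure ℂ) ∧
    ∫ z in f '' sphere c r, F z ∂μH[1]
      = ∫ t in (-π)..π, ((r * ‖k (c + r * ex t)‖ : ℝ) : ℂ) * F (gam f c r t) := by
  have hmem : ∀ t : ℝ, c + r * ex t ∈ sphere c r := by
    intro t
    rw [mem_sphere_iff_norm]
    exact pc_norm c (p := (r, t)) hr.le
  have himg : gam f c r '' Ico 0 (2 * π) = f '' sphere c r := by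
    rw [← sphere_eq hr, image_image]
    rfl
  have hcc : Continuous (fun t : ℝ => c + r * ex t) :=
    continuous_const.add (continuous_const.mul ex_cont)
  have hkc : Continuous (fun t : ℝ => k (c + r * ex t)) :=
    hk.comp_continuous hcc (fun t => hs (hmem t))
  have hwc : Continuous (fun t : ℝ => r * ‖k (c + r * ex t)‖) := continuous_const.mul hkc.norm
  have hstrict : ∀ t, HasStrictDerivAt (gam f c r) ((r * (I * ex t)) * k (c + r * ex t)) t := by
    intro t
    have hz := hs (hmem t)
    have hfd : DifferentiableOn ℂ f W := fun z hz =>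
      (hf z hz).differentiableAt.differentiableWithinAt
    have h1 : HasStrictDerivAt f (k (c + r * ex t)) (c + r * ex t) := by
      have := (hfd.analyticAt (hW.mem_nhds hz)).hasStrictDerivAt
      rwa [(hf _ hz).deriv] at this
    have h2 : HasStrictDerivAt (fun t : ℝ => c + r * ex t) (r * (I * ex t)) t :=
      ((ex_strict t).const_mul (r : ℂ)).const_add c
    exact h1.scomp t h2
  have hnorm : ∀ t, ‖(r * (I * ex t)) * k (c + r * ex t)‖ = r * ‖k (c + r * ex t)‖ := by
    intro t
    rw [norm_mul, norm_mul, norm_mul, ex_norm, Complex.norm_I, Complex.norm_real,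
      Real.norm_of_nonneg hr.le]
    ring
  obtain ⟨C, hC⟩ : ∃ C : ℝ, ∀ z ∈ sphere c r, ‖k z‖ ≤ C :=
    (isCompact_sphere c r).exists_bound_of_continuousOn (hk.mono hs)
  have hC0 : 0 ≤ C := (norm_nonneg _).trans (hC _ (hmem 0))
  have hlip : LipschitzWith (Real.toNNReal (r * C)) (gam f c r) := by
    apply lipschitzWith_of_nnnorm_deriv_le
    · exact fun t => (hstrict t).hasDerivAt.differentiableAt
    · intro t
      rw [(hstrict t).hasDerivAt.deriv, ← NNReal.coe_le_coe, coe_nnnorm, hnorm,
        Real.coe_toNNReal _ (by positivity)]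
      exact mul_le_mul_of_nonneg_left (hC _ (hmem t)) hr.le
  have hginj : InjOn (gam f c r) (Ico 0 (2 * π)) := by
    intro a ha b hb hab
    have h1 := hinj (hs (hmem a)) (hs (hmem b)) hab
    have h2 : (r : ℂ) * ex a = r * ex b := add_left_cancel h1
    have hr' : (r : ℂ) ≠ 0 := by exact_mod_cast hr.ne'
    exact ex_injOn ha hb (mul_left_cancel₀ hr' h2)
  have hcomp : IsCompact (f '' sphere c r) :=
    (isCompact_sphere c r).image_of_continuousOn (fun z hz =>
      (hf z (hs hz)).continuousAt.continuousWithinAt)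
  have key := arc_int (w := fun t => r * ‖k (c + r * ex t)‖) hlip hginj hwc
    (fun t => by positivity) (fun t => ⟨_, hnorm t, hstrict t⟩)
    (F := F) (by rw [himg]; exact hF) (by rw [himg]; exact hcomp)
  rw [himg] at key
  refine ⟨key.1, key.2.trans ?_⟩
  have hper : Function.Periodic
      (fun t : ℝ => ((r * ‖k (c + r * ex t)‖ : ℝ) : ℂ) * F (gam f c r t)) (2 * π) := by
    intro t
    simp only [gam, ex_per t]
  have := hper.intervalIntegral_add_eq (-π) 0
  rw [zero_add] at this
  rw [← this]
  congr 1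
  ring

end Pool.Agent.H792R3.Quad
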